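import Pool.Agent.H18.PenroseProof

set_option autoImplicit false
open Polynomial Pool.Agent.H18.Penrose

namespace Pool.Agent.Results.MP_daa8b9_co.Szegedy

/-- **Szegedy's divisibility question has a negative answer.**  There is a simple connected plane
cubic graph with 21 edges (hence 14 vertices) with `F_G(4) = 54` and `P_G(-1) = -78966`, and 54
does not divide 78966. -/
theorem result : ∃ G : CubicMap (Fin 21), G.IsPlane ∧ G.IsSimple ∧ G.colourings = 54 ∧
    G.penrose.eval (-1) = -78966 ∧ ¬ ((G.colourings : ℤ) ∣ G.penrose.eval (-1)) := by
  refine ⟨G₀, plane, simple, colourings, value, ?_⟩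
  rw [colourings, value]
  decide

end Pool.Agent.Results.MP_daa8b9_co.Szegedy
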